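import Pool.Agent.Lib_MP_f1a94e_kl.Kl10
import Pool.Agent.Lib_MP_f1a94e_q.LineCert
import Pool.Agent.Lib_MP_f1a94e_ev.EvenCertS

/-!
# MP_f1a94e_nt: almost primes `m ^ 2 + 1` whose number of prime factors is in a given class

Let `q ≥ 1`, and let `a`, `b` be integers; suppose that `q` is odd (then `b = a` is allowed) or that
`a + b` is odd. Let `P₀` be given. There is `R` such that for all large `N` at least
`N ^ (1 / 2) / (log N) ^ R` of the numbers `k ≤ N` of the form `k = m ^ 2 + 1` have no prime factor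
`≤ P₀`, at most `R` prime factors counted with multiplicity, `Ω(k) ≡ a` or `b` modulo `q`, and are the
product of a number `s ≤ R` and of a number all of whose prime factors exceed `k ^ (1 / R)`.

For every `q` and every even class `a` the same holds with `Ω(k) ≡ a` modulo `q`, for `m` of either
parity and the condition on the odd primes `≤ P₀` (part 2, `OmEv.almost_prime_evenR`).

Sketch of the proof. `OmQ.lineCert`: there is a finite set `V` of integer vectors such that for every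
labelling of `V` by classes modulo `q` some pair `u, v` of vectors of `V` has the sum of labels
required. Let `r` be a prime, `r ≡ 1` modulo a fixed `L`, and let `b, c < r`, `L ^ 2 b c ≡ -1`
modulo `r`. Then `z = (r, L b)` and `w = (L c, (L ^ 2 b c + 1) / r)` have determinant one, and they
are `(1, 0)`, `(0, 1)` modulo `L`. The pairs `(b, c)` are equidistributed in residue classes with a
power saving (fourth moment of Kloosterman sums modulo `r`), so that a sieve in two variables gives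
many `(b, c)` such that the norms of all vectors `u₁ z + u₂ w`, `u ∈ V`, are almost prime. The labels
`Ω(|u₁ z + u₂ w|²)` give `u, v ∈ V` and `n` with
`det(u, v)² (n ^ 2 + 1) = |u₁ z + u₂ w|² |v₁ z + v₂ w|²`, and `Ω(n ^ 2 + 1)` is `a` or `b` modulo `q`.
For part 2 the certificate (`OmEv.certR_even`) uses triples of vectors `u, u + v, v` with the same
determinant `5 k` up to sign and norms divisible by `5 k`, not by `25` and not by another odd prime
`≤ P₀`: two of the three labels have the same parity.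
-/

set_option autoImplicit false

namespace Pool.Agent.Results.MP_f1a94e_nt.AlmostPrimesModQ

open ArithmeticFunction

/-- For all large `N` at least `N ^ (1 / 2) / (log N) ^ R` of the `k ≤ N`, `k = m ^ 2 + 1`, are
`R`-almost primes with `Ω(k) ≡ a` or `b` modulo `q`. -/
theorem first (q : ℕ) (hq : 0 < q) (a b : ℤ) (hab : Odd q ∨ Odd (a + b)) (P₀ : ℕ) :
    ∃ R : ℕ, ∀ᶠ N : ℕ in Filter.atTop, √(N : ℝ) / Real.log N ^ R ≤
      Set.ncard {k : ℕ | k ≤ N ∧ (∃ m : ℕ, Even m ∧ k = m ^ 2 + 1) ∧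
        (∀ p : ℕ, p.Prime → p ∣ k → P₀ < p) ∧ cardFactors k ≤ R ∧
        ((cardFactors k : ℤ) ≡ a [ZMOD q] ∨ (cardFactors k : ℤ) ≡ b [ZMOD q]) ∧
        ∃ s r : ℕ, k = s * r ∧ s ≤ R ∧ ∀ p : ℕ, p.Prime → p ∣ r → k < p ^ R} := by
  have hcert : OmAP.LineCertA q ({(a : ZMod q), (b : ZMod q)} : Set (ZMod q)) P₀.factorial := by
    obtain ⟨N, hN⟩ := OmQ.lineCert q hq a b hab P₀
    refine ⟨N, fun X => ?_⟩
    obtain ⟨i, k, hk, hik, -, hdvd, hc1, hc2, h⟩ := hN X
    refine ⟨i, k, hk, hik, hdvd, hc1, hc2, ?_⟩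
    rw [Set.mem_insert_iff, Set.mem_singleton_iff]
    rcases h with h | h
    · exact Or.inl (by rw [h]; ring)
    · exact Or.inr (by rw [h]; ring)
  obtain ⟨R, hR⟩ := OmKl.almost_prime_log (OmAP.CertA.of_line hcert)
  refine ⟨R, ?_⟩
  filter_upwards [hR] with N hN
  refine hN.trans (Nat.cast_le.mpr (Set.ncard_le_ncard ?_ ((Set.finite_Iic N).subset
    fun k hk => hk.1)))
  rintro k ⟨hkN, hm, hp, hc, hA, hs⟩
  refine ⟨hkN, hm, hp, hc, ?_, hs⟩
  rw [Set.mem_insert_iff, Set.mem_singleton_iff] at hA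
  rcases hA with h | h
  · exact Or.inl ((ZMod.intCast_eq_intCast_iff _ _ _).mp (by push_cast; exact h))
  · exact Or.inr ((ZMod.intCast_eq_intCast_iff _ _ _).mp (by push_cast; exact h))

/-- (1) Two classes of different parity, or any class modulo an odd number, without small prime
factors. (2) Every even class modulo every number, without small odd prime factors. -/
theorem result (q : ℕ) (hq : 0 < q) :
    (∀ a b : ℤ, (Odd q ∨ Odd (a + b)) → ∀ P₀ : ℕ,
      ∃ R : ℕ, ∀ᶠ N : ℕ in Filter.atTop, √(N : ℝ) / Real.log N ^ R ≤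
        Set.ncard {k : ℕ | k ≤ N ∧ (∃ m : ℕ, Even m ∧ k = m ^ 2 + 1) ∧
          (∀ p : ℕ, p.Prime → p ∣ k → P₀ < p) ∧ cardFactors k ≤ R ∧
          ((cardFactors k : ℤ) ≡ a [ZMOD q] ∨ (cardFactors k : ℤ) ≡ b [ZMOD q]) ∧
          ∃ s r : ℕ, k = s * r ∧ s ≤ R ∧ ∀ p : ℕ, p.Prime → p ∣ r → k < p ^ R}) ∧
    (∀ a : ℤ, Even a → ∀ P₀ : ℕ,
      ∃ R : ℕ, ∀ᶠ N : ℕ in Filter.atTop, √(N : ℝ) / Real.log N ^ R ≤
        Set.ncard {k : ℕ | k ≤ N ∧ (∃ m : ℕ, k = m ^ 2 + 1) ∧
          (∀ p : ℕ, p.Prime → p ∣ k → p = 2 ∨ P₀ < p) ∧ cardFactors k ≤ R ∧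
          (cardFactors k : ℤ) ≡ a [ZMOD q] ∧
          ∃ s r : ℕ, k = s * r ∧ s ≤ R ∧ ∀ p : ℕ, p.Prime → p ∣ r → k < p ^ R}) :=
  ⟨fun a b hab P₀ => first q hq a b hab P₀, fun a ha P₀ => OmEv.almost_prime_evenR q hq a ha P₀⟩

end Pool.Agent.Results.MP_f1a94e_nt.AlmostPrimesModQ
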