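import Pool.Agent.Lib_MP_f1a94e_m.G32

/-!
# MP_f1a94e_nt: every profile of large prime factors occurs in balanced factorisations `m ^ 2 + 1 = d e`

For all finite lists `t`, `t'` of positive exponents with sum at most one and every `ε > 0`, for at least `x / (log x) ^ A`
even `m ≤ x` (any `A > log 2`) one has `m ^ 2 + 1 = d e`, `α d ≤ e ≤ β d`, `d = s p_1 ... p_k`, `e = s' p'_1 ... p'_l` with primes
`p_i = m^(t_i ± ε)`, `p'_j = m^(t'_j ± ε)` and `m^ε`-smooth `s`, `s'`, in every class of `Ω(d)`, `Ω(e)` modulo `q`.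
-/

set_option autoImplicit false

namespace Pool.Agent.Results.MP_f1a94e_nt.FactorProfile

open Filter Pool.Agent.OmEq

/-- `n = s p_1 ... p_k` with primes `p_i` between `y^(t i - ε)` and `y^(t i + ε)`, `s ≤ y^(1 - ∑ t i + ε)`, and all prime
factors of `s` at most `y^ε` -/
def Profile (k : ℕ) (t : Fin k → ℝ) (ε y : ℝ) (n : ℕ) : Prop :=
  ∃ (s : ℕ) (p : Fin k → ℕ), (∀ i, (p i).Prime ∧ y ^ (t i - ε) ≤ p i ∧ (p i : ℝ) ≤ y ^ (t i + ε)) ∧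
    n = s * ∏ i, p i ∧ (s : ℝ) ≤ y ^ (1 - ∑ i, t i + ε) ∧ ∀ r : ℕ, r.Prime → r ∣ s → (r : ℝ) ≤ y ^ ε

theorem result :
    ∀ (k l : ℕ) (t : Fin k → ℝ) (t' : Fin l → ℝ), (∀ i, 0 < t i) → (∀ j, 0 < t' j) → ∑ i, t i ≤ 1 → ∑ j, t' j ≤ 1 →
    ∀ ε : ℝ, 0 < ε → ∀ R : ℕ, 0 < R → ∀ q : ℕ, 0 < q → ∀ a b : ℤ, ∀ α β : ℝ, 0 < α → α < β → ∀ A : ℝ, Real.log 2 < A →
      ∃ x0 : ℝ, ∀ x : ℝ, x0 ≤ x → x / Real.log x ^ A ≤
        (Set.ncard {m : ℕ | (m : ℝ) ≤ x ∧ Even m ∧ (m ^ 2 + 1).Coprime R ∧ ∃ d e : ℕ, d * e = m ^ 2 + 1 ∧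
          (α * d ≤ e ∧ (e : ℝ) ≤ β * d) ∧ (ArithmeticFunction.cardFactors d : ℤ) ≡ a [ZMOD q] ∧
          (ArithmeticFunction.cardFactors e : ℤ) ≡ b [ZMOD q] ∧ Profile k t ε m d ∧ Profile l t' ε m e} : ℝ) := by
  intro k l t t' ht ht' hs hs' ε hε R hR q hq a b α β hα hαβ A hA
  exact Pool.Agent.LPr.fac_prof R hR q hq a b α β hα hαβ k l t t' ht ht' hs hs' ε hε A hA

end Pool.Agent.Results.MP_f1a94e_nt.FactorProfile
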