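import Pool.Agent.Lib_MP_f1a94e_fl.FinR
import Pool.Agent.Lib_MP_f1a94e_fl.KPat
import Pool.Agent.Lib_MP_f1a94e_fl.Tup

/-!
# MP_f1a94e_nt: two-point laws for `m ^ 2 + 1` along the progressions `m, m + d, m + 2 d, …` with `d ∣ m ^ 2 + 1`

The pairs `(d, m)` with `d ≤ x`, `α d ≤ m < β d`, `d ∣ m ^ 2 + 1`, and the cofactors `e_j = ((m + j d) ^ 2 + 1) / d`.
Two cofactors `e_i`, `e_j`, and likewise `d` and `e_j`, are asymptotically independent and distributed as random integers;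
hence the exact variance over any finite set of members, and, with an error smaller by the square root of the number of
members, the joint independence of `n` cofactors, and the vanishing of the correlations of the Liouville function at `n`
members, for almost all `n`-tuples of members and within every set of pairs; all sign patterns of the Liouville function at
two members with their exact frequencies, a bound below 1 for its correlations at any number of members in arithmetic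
progression, and all eight sign patterns at three such members, and at `d` and two members, with positive density.
-/

set_option autoImplicit false

namespace Pool.Agent.Results.MP_f1a94e_nt.FanLaw

open Filter

open Classical in
/-- the number of prime factors of `n`, counted with multiplicity, in the window `(x^u, x^v]` -/
noncomputable def win (x u v : ℝ) (n : ℕ) : ℕ :=
  (n.primeFactorsList.filter (fun p : ℕ => x ^ u < (p : ℝ) ∧ (p : ℝ) ≤ x ^ v)).length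

/-- `Ω(n) ≡ a` modulo `q` and, for all `i`, exactly `k i` prime factors of `n` in the window `(x^(u i), x^(v i)]` -/
def Typ (q : ℕ) (a : ℤ) {r : ℕ} (u v : Fin r → ℝ) (k : Fin r → ℕ) (x : ℝ) (n : ℕ) : Prop :=
  (ArithmeticFunction.cardFactors n : ℤ) ≡ a [ZMOD q] ∧ ∀ i, win x (u i) (v i) n = k i

/-- the pairs `(d, m)`: `1 ≤ d ≤ x`, `α d ≤ m < β d`, `d ∣ m ^ 2 + 1` -/
def pairs (x α β : ℝ) : Set (ℕ × ℕ) :=
  {p | 1 ≤ p.1 ∧ (p.1 : ℝ) ≤ x ∧ α * p.1 ≤ p.2 ∧ (p.2 : ℝ) < β * p.1 ∧ p.1 ∣ p.2 ^ 2 + 1}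

/-- the cofactor `e_j = ((m + j d) ^ 2 + 1) / d` of the pair `p = (d, m)` -/
def cof (p : ℕ × ℕ) (j : ℕ) : ℕ := ((p.2 + j * p.1) ^ 2 + 1) / p.1

/-- the Liouville function -/
def lam (n : ℕ) : ℤ := (-1) ^ ArithmeticFunction.cardFactors n

/-- the Liouville function at the `j`-th member: `λ((m + j d) ^ 2 + 1)` for `p = (d, m)` -/
def lx (p : ℕ × ℕ) (j : ℕ) : ℤ := lam ((p.2 + j * p.1) ^ 2 + 1)

/-- extension of a function on `Fin r` -/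
noncomputable def ext {α : Type*} {r : ℕ} (u : Fin r → α) (c : α) (i : ℕ) : α := if h : i < r then u ⟨i, h⟩ else c

theorem ext_lt {α : Type*} {r : ℕ} (u : Fin r → α) (c : α) (i : Fin r) : ext u c i = u i := by
  unfold ext
  rw [dif_pos i.2]

theorem ext_iff {r : ℕ} (u v : Fin r → ℝ) (k : Fin r → ℕ) (x : ℝ) (n : ℕ) :
    (∀ i < r, Pool.Agent.LPr.wc x (ext u 1 i) (ext v 1 i) n = ext k 0 i) ↔ ∀ i, win x (u i) (v i) n = k i := by
  constructor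
  · intro h i
    have h1 := h i i.2
    rw [ext_lt, ext_lt, ext_lt] at h1
    exact h1
  · intro h i hi
    have h1 := h ⟨i, hi⟩
    have e1 := ext_lt u 1 ⟨i, hi⟩
    have e2 := ext_lt v 1 ⟨i, hi⟩
    have e3 := ext_lt k 0 ⟨i, hi⟩
    simp only at e1 e2 e3
    rw [e1, e2, e3]
    exact h1

theorem typ_iff (R q : ℕ) (a : ℤ) {r : ℕ} (u v : Fin r → ℝ) (k : Fin r → ℕ) (x : ℝ) (n : ℕ) :
    Pool.Agent.FanL.PrfR R q a (ext u 1) (ext v 1) r (ext k 0) x n ↔ (n.Coprime R ∧ Typ q a u v k x n) := by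
  unfold Pool.Agent.FanL.PrfR Typ
  rw [ext_iff]

theorem pairs_card (x α β : ℝ) (hx : 0 ≤ x) :
    (Set.ncard (pairs x α β) : ℝ) = ((Pool.Agent.FanL.DP x α β).card : ℝ) := by
  have h : (pairs x α β) = ((Pool.Agent.FanL.DP x α β : Finset (ℕ × ℕ)) : Set (ℕ × ℕ)) := by
    ext p
    rw [Finset.mem_coe, Pool.Agent.FanL.mem_DP hx]
    rfl
  rw [h, Set.ncard_coe_finset]

theorem result : ∃ κ : ℝ, 0 < κ ∧
    (∀ α β : ℝ, 0 ≤ α → α ≤ β →
      Tendsto (fun x : ℝ => (Set.ncard (pairs x α β) : ℝ) / x) atTop (nhds (κ * (β - α)))) ∧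
    (∀ (R q q' r s : ℕ) (u v : Fin r → ℝ) (u' v' : Fin s → ℝ) (k : Fin r → ℕ) (l : Fin s → ℕ),
      0 < R → 0 < q → 0 < q' → (∀ i, 0 < u i ∧ u i ≤ v i) → (∀ j, 0 < u' j ∧ u' j ≤ v' j) → ∃ c c' : ℝ,
      Tendsto (fun x : ℝ => (Set.ncard {n : ℕ | 1 ≤ n ∧ (n : ℝ) ≤ x ∧ ∀ i, win x (u i) (v i) n = k i} : ℝ) / x)
        atTop (nhds c) ∧
      Tendsto (fun x : ℝ => (Set.ncard {n : ℕ | 1 ≤ n ∧ (n : ℝ) ≤ x ∧ ∀ j, win x (u' j) (v' j) n = l j} : ℝ) / x)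
        atTop (nhds c') ∧
      (∀ (a b : ℤ) (i j : ℕ) (α β : ℝ), i ≠ j → 0 ≤ α → α ≤ β → Tendsto (fun x : ℝ =>
        ((Set.ncard {p | p ∈ pairs x α β ∧ ((cof p i).Coprime R ∧ Typ q a u v k x (cof p i)) ∧
            ((cof p j).Coprime R ∧ Typ q' b u' v' l x (cof p j))} : ℝ) -
          c * c' / (q * q') * Set.ncard {p | p ∈ pairs x α β ∧ (cof p i).Coprime R ∧ (cof p j).Coprime R}) / x)
        atTop (nhds 0)) ∧
      (∀ (a b : ℤ) (j : ℕ) (α β : ℝ), 0 ≤ α → α ≤ β → Tendsto (fun x : ℝ =>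
        ((Set.ncard {p | p ∈ pairs x α β ∧ (p.1.Coprime R ∧ Typ q a u v k x p.1) ∧
            ((cof p j).Coprime R ∧ Typ q' b u' v' l x (cof p j))} : ℝ) -
          c * c' / (q * q') * Set.ncard {p | p ∈ pairs x α β ∧ p.1.Coprime R ∧ (cof p j).Coprime R}) / x)
        atTop (nhds 0)) ∧
      (∀ (a : ℤ) (S : Finset ℕ), Tendsto (fun x : ℝ =>
        (∑ d ∈ Finset.Icc 1 ⌊x⌋₊, ∑ ρ ∈ (Finset.range d).filter (fun ρ => d ∣ ρ ^ 2 + 1),
          (((Set.ncard {j : ℕ | j ∈ S ∧ ((cof (d, ρ) j).Coprime R ∧ Typ q a u v k x (cof (d, ρ) j))} : ℝ) -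
            c / q * Set.ncard {j : ℕ | j ∈ S ∧ (cof (d, ρ) j).Coprime R}) ^ 2 -
          c / q * (1 - c / q) * Set.ncard {j : ℕ | j ∈ S ∧ (cof (d, ρ) j).Coprime R})) / x)
        atTop (nhds 0))) ∧
    (∀ (n R : ℕ) (q r : Fin n → ℕ) (u v : ∀ l, Fin (r l) → ℝ) (k : ∀ l, Fin (r l) → ℕ),
      0 < R → (∀ l, 0 < q l) → (∀ l i, 0 < u l i ∧ u l i ≤ v l i) → ∃ c : Fin n → ℝ,
      (∀ l, Tendsto (fun x : ℝ => (Set.ncard {m : ℕ | 1 ≤ m ∧ (m : ℝ) ≤ x ∧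
        ∀ i, win x (u l i) (v l i) m = k l i} : ℝ) / x) atTop (nhds (c l))) ∧
      ∀ (a : Fin n → ℤ) (α β : ℝ) (J : ℕ) (ε : ℝ), 0 ≤ α → α ≤ β → 0 < ε → ∀ᶠ x : ℝ in atTop,
        ∀ E : Set (ℕ × ℕ), ∑ j : Fin n → Fin J,
          |(Set.ncard {p | p ∈ pairs x α β ∧ (p ∈ E ∧
              ∀ l, (cof p (j l)).Coprime R ∧ Typ (q l) (a l) (u l) (v l) (k l) x (cof p (j l)))} : ℝ) -
            (∏ l, c l / q l) * Set.ncard {p | p ∈ pairs x α β ∧ (p ∈ E ∧ ∀ l, (cof p (j l)).Coprime R)}| ≤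
          (κ * (β - α) * n / 2 * J ^ (n - 1) * √J + ε) * x) ∧
    (∀ (n : ℕ) (α β : ℝ) (J : ℕ) (ε : ℝ), 0 ≤ α → α ≤ β → 0 < ε → ∀ᶠ x : ℝ in atTop,
      ∀ E : Set (ℕ × ℕ), ∑ j : Fin (n + 1) → Fin J,
        |(Set.ncard {p | p ∈ pairs x α β ∧ (p ∈ E ∧ ∏ l, lx p (j l) = 1)} : ℝ) -
          Set.ncard {p | p ∈ pairs x α β ∧ (p ∈ E ∧ ∏ l, lx p (j l) = -1)}| ≤
        (κ * (β - α) * J ^ n * √J + ε) * x) ∧
    (∀ s₀ s₁ : ℤ, (s₀ = 1 ∨ s₀ = -1) → (s₁ = 1 ∨ s₁ = -1) →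
      ∀ (i j : ℕ) (α β : ℝ), i ≠ j → 0 ≤ α → α ≤ β →
      Tendsto (fun x : ℝ => (Set.ncard {p | p ∈ pairs x α β ∧ (lx p i = s₀ ∧ lx p j = s₁)} : ℝ) / x)
        atTop (nhds (κ * (β - α) / 4))) ∧
    (∀ (i n k : ℕ) (α β ε : ℝ), 0 < n → 0 < k → 0 ≤ α → α ≤ β → 0 < ε → ∀ᶠ x : ℝ in atTop,
      ∀ g : ℕ → ℕ → ℤ, (∀ d ρ, g d ρ = 1 ∨ g d ρ = -1) → ∀ s : ℤ, (s = 1 ∨ s = -1) →
      (κ * (β - α - n) / 4 - ε) * x ≤ Set.ncard {p | p ∈ pairs x α β ∧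
        g p.1 (p.2 % p.1) * ∏ l ∈ Finset.range k, lx p (i + l * n) = s}) ∧
    (∀ (n k J : ℕ) (ε : ℝ), 0 < n → 0 < k → 0 < ε → ∀ᶠ x : ℝ in atTop,
      ∑ d ∈ Finset.Icc 1 ⌊x⌋₊, ∑ ρ ∈ (Finset.range d).filter (fun ρ => d ∣ ρ ^ 2 + 1),
        |((∑ j ∈ Finset.range J, ∏ l ∈ Finset.range k, lx (d, ρ) (j + l * n) : ℤ) : ℝ)| ≤
      (κ * (J + n) / 2 + ε) * x) ∧
    (∀ s₀ s₁ s₂ : ℤ, (s₀ = 1 ∨ s₀ = -1) → (s₁ = 1 ∨ s₁ = -1) → (s₂ = 1 ∨ s₂ = -1) →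
      ∀ (i n : ℕ) (α β ε : ℝ), 0 < n → 0 ≤ α → α ≤ β → 0 < ε → ∀ᶠ x : ℝ in atTop,
      (κ * (β - α - n) / 16 - ε) * x ≤
        Set.ncard {p | p ∈ pairs x α β ∧ (lx p i = s₀ ∧ lx p (i + n) = s₁ ∧ lx p (i + 2 * n) = s₂)} ∧
      (κ * (β - α - n) / 16 - ε) * x ≤
        Set.ncard {p | p ∈ pairs x α β ∧ (lam p.1 = s₀ ∧ lx p i = s₁ ∧ lx p (i + n) = s₂)}) := by
  classical
  obtain ⟨κ, hκ, h0⟩ := Pool.Agent.FanL.dp_count
  refine ⟨κ, hκ, ?_, ?_, ?_, ?_, ?_, ?_, ?_, ?_⟩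
  · intro α β hα hαβ
    refine (h0 α β hα hαβ).congr' ?_
    filter_upwards [eventually_ge_atTop 0] with x hx
    rw [pairs_card x α β hx]
  · intro R q q' r s u v u' v' k l hR hq hq' hu hu'
    obtain ⟨c, c', h1, h2, h3, h4, h5⟩ := Pool.Agent.FanL.fin_lawR R q q' (ext u 1) (ext v 1) (ext u' 1) (ext v' 1)
      r s (ext k 0) (ext l 0) hR hq hq'
      (fun i hi => by
        have e1 := ext_lt u 1 ⟨i, hi⟩
        have e2 := ext_lt v 1 ⟨i, hi⟩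
        simp only at e1 e2
        rw [e1, e2]
        exact hu ⟨i, hi⟩)
      (fun i hi => by
        have e1 := ext_lt u' 1 ⟨i, hi⟩
        have e2 := ext_lt v' 1 ⟨i, hi⟩
        simp only at e1 e2
        rw [e1, e2]
        exact hu' ⟨i, hi⟩)
    simp only [ext_iff] at h1 h2
    simp only [typ_iff] at h3 h4 h5
    exact ⟨c, c', h1, h2, h3, h4, h5⟩
  · intro n R q r u v k hR hq hu
    obtain ⟨c, h1, h2⟩ := Pool.Agent.FanL.tup_law κ hκ h0 n R hR q hq (fun l => ext (u l) 1) (fun l => ext (v l) 1)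
      r (fun l => ext (k l) 0)
      (fun l i hi => by
        have e1 := ext_lt (u l) 1 ⟨i, hi⟩
        have e2 := ext_lt (v l) 1 ⟨i, hi⟩
        simp only at e1 e2
        rw [e1, e2]
        exact hu l ⟨i, hi⟩)
    simp only [ext_iff] at h1
    simp only [typ_iff] at h2
    exact ⟨c, h1, h2⟩
  · intro n α β J ε hα hαβ hε
    exact Pool.Agent.FanL.tup_lamE κ hκ h0 n α β J ε hα hαβ hε
  · intro s₀ s₁ hs₀ hs₁ i j α β hij hα hαβ
    refine (Pool.Agent.FanL.four_pat κ h0 i j hij s₀ s₁ hs₀ hs₁ α β hα hαβ).congr' ?_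
    filter_upwards [eventually_ge_atTop 0] with x hx
    exact congrArg (fun n : ℕ => (n : ℝ) / x) (Pool.Agent.FanL.ps_card_iff x α β hx _ _ (fun p => Iff.rfl))
  · intro i n k α β ε hn hk hα hαβ hε
    filter_upwards [eventually_ge_atTop 0, Pool.Agent.FanL.kpat κ hκ h0 i n k hn hk α β hα hαβ ε hε] with x hx hp g hg s hs
    refine (hp g hg s hs).trans (le_of_eq ?_)
    exact congrArg (fun n : ℕ => (n : ℝ)) (Pool.Agent.FanL.ps_card_iff x α β hx _ _ (fun p => Iff.rfl))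
  · intro n k J ε hn hk hε
    exact Pool.Agent.FanL.kabs κ hκ h0 n k hn hk J ε hε
  · intro s₀ s₁ s₂ hs₀ hs₁ hs₂ i n α β ε hn hα hαβ hε
    filter_upwards [eventually_ge_atTop 0, Pool.Agent.FanL.eightK_a κ hκ h0 s₀ s₁ s₂ hs₀ hs₁ hs₂ i n hn α β hα hαβ ε hε,
      Pool.Agent.FanL.eightK_b κ hκ h0 s₀ s₁ s₂ hs₀ hs₁ hs₂ i n hn α β hα hαβ ε hε] with x hx ha hb
    constructor
    · refine ha.trans (le_of_eq ?_)
      exact congrArg (fun n : ℕ => (n : ℝ)) (Pool.Agent.FanL.ps_card_iff x α β hx _ _ (fun p => Iff.rfl))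
    · refine hb.trans (le_of_eq ?_)
      exact congrArg (fun n : ℕ => (n : ℝ)) (Pool.Agent.FanL.ps_card_iff x α β hx _ _ (fun p => Iff.rfl))

end Pool.Agent.Results.MP_f1a94e_nt.FanLaw
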