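import Pool.Agent.Lib_MP_f1a94e_m.G32

/-!
# MP_f1a94e_nt: joint law of the large prime factors of `d` and `e` over the balanced factorisations `m ^ 2 + 1 = d e`

The numbers of prime factors of `d` and of `e` in given windows `(x^u, x^v]` are asymptotically distributed as those of two
independent random integers up to `x`, jointly with `Ω(d)`, `Ω(e)` modulo `q` (independent, uniform) and with `log (e / d)`
(uniform), for all `x → ∞`.
-/

set_option autoImplicit false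

namespace Pool.Agent.Results.MP_f1a94e_nt.JointLaw

open Filter Pool.Agent.OmEq

open Classical in
/-- the number of prime factors of `n`, counted with multiplicity, in the window `(x^u, x^v]` -/
noncomputable def win (x u v : ℝ) (n : ℕ) : ℕ :=
  (n.primeFactorsList.filter (fun p : ℕ => x ^ u < (p : ℝ) ∧ (p : ℝ) ≤ x ^ v)).length

theorem win_eq (x u v : ℝ) (n : ℕ) : win x u v n = Pool.Agent.LPr.wc x u v n := rfl

/-- extension of a function on `Fin r` -/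
noncomputable def ext {α : Type*} {r : ℕ} (u : Fin r → α) (c : α) (i : ℕ) : α := if h : i < r then u ⟨i, h⟩ else c

theorem ext_lt {α : Type*} {r : ℕ} (u : Fin r → α) (c : α) (i : Fin r) : ext u c i = u i := by
  unfold ext
  rw [dif_pos i.2]

theorem ext_iff {r : ℕ} (u v : Fin r → ℝ) (k : Fin r → ℕ) (x : ℝ) (n : ℕ) :
    (∀ i < r, Pool.Agent.LPr.wc x (ext u 1 i) (ext v 1 i) n = ext k 0 i) ↔ ∀ i, win x (u i) (v i) n = k i := by
  constructor
  · intro h i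
    have h1 := h i i.2
    rw [ext_lt, ext_lt, ext_lt] at h1
    exact h1
  · intro h i hi
    have h1 := h ⟨i, hi⟩
    have e1 := ext_lt u 1 ⟨i, hi⟩
    have e2 := ext_lt v 1 ⟨i, hi⟩
    have e3 := ext_lt k 0 ⟨i, hi⟩
    simp only at e1 e2 e3
    rw [e1, e2, e3]
    exact h1

theorem result :
    ∀ R : ℕ, 0 < R → ∃ κ : ℝ, 0 < κ ∧
    ∀ (q : ℕ) (a b : ℤ) (α β : ℝ), 0 < q → 0 < α → α ≤ β →
    ∀ (r s : ℕ) (u v : Fin r → ℝ) (u' v' : Fin s → ℝ) (k : Fin r → ℕ) (l : Fin s → ℕ),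
      (∀ i, 0 < u i ∧ u i ≤ v i) → (∀ j, 0 < u' j ∧ u' j ≤ v' j) →
    ∃ c c' : ℝ,
      Tendsto (fun x : ℝ => (Set.ncard {n : ℕ | 1 ≤ n ∧ (n : ℝ) ≤ x ∧ ∀ i, win x (u i) (v i) n = k i} : ℝ) / x)
        atTop (nhds c) ∧
      Tendsto (fun x : ℝ => (Set.ncard {n : ℕ | 1 ≤ n ∧ (n : ℝ) ≤ x ∧ ∀ j, win x (u' j) (v' j) n = l j} : ℝ) / x)
        atTop (nhds c') ∧
      Tendsto (fun x : ℝ => (Set.ncard {p : ℕ × ℕ | (∃ m : ℕ, 1 ≤ m ∧ (m : ℝ) ≤ x ∧ p.1 * p.2 = m ^ 2 + 1) ∧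
        (α * p.1 ≤ p.2 ∧ (p.2 : ℝ) ≤ β * p.1) ∧ (p.1 * p.2).Coprime R ∧
        (ArithmeticFunction.cardFactors p.1 : ℤ) ≡ a [ZMOD q] ∧
        (ArithmeticFunction.cardFactors p.2 : ℤ) ≡ b [ZMOD q] ∧
        (∀ i, win x (u i) (v i) p.1 = k i) ∧ (∀ j, win x (u' j) (v' j) p.2 = l j)} : ℝ) / x)
        atTop (nhds (κ * Real.log (β / α) * c * c' / q ^ 2)) := by
  intro R hR
  obtain ⟨κ, hκ, h⟩ := Pool.Agent.LPr.fac_lawG R hR
  refine ⟨κ, hκ, ?_⟩
  intro q a b α β hq hα hαβ r s u v u' v' k l hu hu'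
  obtain ⟨c, c', h1, h2, h3⟩ := h q a b α β (ext u 1) (ext v 1) (ext u' 1) (ext v' 1) r s (ext k 0) (ext l 0) hq hα hαβ
    (fun i hi => by
      have e1 := ext_lt u 1 ⟨i, hi⟩
      have e2 := ext_lt v 1 ⟨i, hi⟩
      simp only at e1 e2
      rw [e1, e2]
      exact hu ⟨i, hi⟩)
    (fun i hi => by
      have e1 := ext_lt u' 1 ⟨i, hi⟩
      have e2 := ext_lt v' 1 ⟨i, hi⟩
      simp only at e1 e2
      rw [e1, e2]
      exact hu' ⟨i, hi⟩)
  simp only [ext_iff] at h1 h2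
  refine ⟨c, c', h1, h2, ?_⟩
  refine h3.congr fun x => ?_
  unfold FS Pool.Agent.LPr.PJG
  simp only [ext_iff]

end Pool.Agent.Results.MP_f1a94e_nt.JointLaw
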